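import Mathlib

/-!
The simple reflections of a Coxeter system are pairwise distinct
(via the geometric representation).
-/

set_option autoImplicit false

namespace Pool.Agent.H.MP_330ad9_al

open CoxeterSystem Module

variable {B W : Type*} [Group W] {M : CoxeterMatrix B} (cs : CoxeterSystem M W)

section geom

/-- Entries `-2 cos (π / m)` (and `-2` for `m = ∞`). -/
noncomputable def kk (M : CoxeterMatrix B) (i j : B) : ℝ :=
  if M i j = 0 then -2 else -2 * Real.cos (Real.pi / M i j)

theorem kk_self (M : CoxeterMatrix B) (i : B) : kk M i i = 2 := by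
  simp [kk]

theorem kk_symm (M : CoxeterMatrix B) (i j : B) : kk M i j = kk M j i := by
  unfold kk; rw [M.symmetric i j]

/-- The linear form attached to `i`. -/
noncomputable def ff (M : CoxeterMatrix B) (i : B) : Dual ℝ (B →₀ ℝ) :=
  Finsupp.linearCombination ℝ (fun j => kk M i j)

theorem ff_single (M : CoxeterMatrix B) (i j : B) : ff M i (Finsupp.single j 1) = kk M i j := by
  simp [ff]

theorem ff_self (M : CoxeterMatrix B) (i : B) : ff M i (Finsupp.single i 1) = 2 := by
  rw [ff_single, kk_self]

/-- The reflection attached to `i`. -/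
noncomputable def rr (M : CoxeterMatrix B) (i : B) : (B →₀ ℝ) ≃ₗ[ℝ] (B →₀ ℝ) :=
  Module.reflection (ff_self M i)

theorem kk_mul_kk (M : CoxeterMatrix B) (i j : B) (h : 3 ≤ M i j) :
    kk M i j * kk M j i - 2 = 2 * Real.cos (2 * Real.pi / M i j) := by
  rw [kk_symm M j i]
  have : M i j ≠ 0 := by lia
  rw [kk, if_neg this, show 2 * Real.pi / (M i j : ℝ) = 2 * (Real.pi / M i j) by ring,
    Real.cos_two_mul]
  ring

theorem cheb_zero (m : ℕ) (hm : 3 ≤ m) (t : ℝ) (ht : t = 2 * Real.cos (2 * Real.pi / m)) :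
    ((Polynomial.Chebyshev.S ℝ (((m : ℤ) - 2) / 2)).eval t *
      ((Polynomial.Chebyshev.S ℝ (((m : ℤ) - 1) / 2)).eval t +
        (Polynomial.Chebyshev.S ℝ (((m : ℤ) - 3) / 2)).eval t)) = 0 ∧
    ((Polynomial.Chebyshev.S ℝ (((m : ℤ) - 1) / 2)).eval t *
      ((Polynomial.Chebyshev.S ℝ ((m : ℤ) / 2)).eval t +
        (Polynomial.Chebyshev.S ℝ (((m : ℤ) - 2) / 2)).eval t)) = 0 := by
  set θ := 2 * Real.pi / m with hθ
  have hm0 : (0 : ℝ) < m := by positivity
  have hmθ : (m : ℝ) * θ = 2 * Real.pi := by rw [hθ]; field_simp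
  have hsin : Real.sin θ ≠ 0 := by
    apply ne_of_gt
    apply Real.sin_pos_of_pos_of_lt_pi
    · rw [hθ]; positivity
    · rw [hθ, div_lt_iff₀ hm0]
      have : (3 : ℝ) ≤ m := by exact_mod_cast hm
      nlinarith [Real.pi_pos]
  have hS : ∀ k : ℤ, (Polynomial.Chebyshev.S ℝ k).eval t * Real.sin θ = Real.sin ((k + 1) * θ) := by
    intro k
    rw [ht]
    exact Polynomial.Chebyshev.S_two_mul_real_cos θ k
  rcases Nat.even_or_odd' m with ⟨k, hk | hk⟩
  · have e1 : ((m : ℤ) - 2) / 2 = (k : ℤ) - 1 := by lia
    have e2 : ((m : ℤ) - 1) / 2 = (k : ℤ) - 1 := by lia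
    have h0 : (Polynomial.Chebyshev.S ℝ ((k : ℤ) - 1)).eval t = 0 := by
      have := hS ((k : ℤ) - 1)
      have h2 : (((((k : ℤ) - 1 : ℤ) : ℝ)) + 1) * θ = Real.pi := by
        push_cast
        have : (m : ℝ) = 2 * k := by exact_mod_cast hk
        rw [this] at hmθ
        linarith
      rw [h2, Real.sin_pi] at this
      exact (mul_eq_zero.mp this).resolve_right hsin
    rw [e1, e2, h0]
    simp
  · have e1 : ((m : ℤ) - 1) / 2 = (k : ℤ) := by lia
    have e2 : ((m : ℤ) - 3) / 2 = (k : ℤ) - 1 := by lia
    have e3 : (m : ℤ) / 2 = (k : ℤ) := by lia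
    have e4 : ((m : ℤ) - 2) / 2 = (k : ℤ) - 1 := by lia
    have h0 : (Polynomial.Chebyshev.S ℝ (k : ℤ)).eval t +
        (Polynomial.Chebyshev.S ℝ ((k : ℤ) - 1)).eval t = 0 := by
      have h1 := hS (k : ℤ)
      have h2 := hS ((k : ℤ) - 1)
      have h3 : Real.sin ((((k : ℤ) : ℝ) + 1) * θ) + Real.sin (((((k : ℤ) - 1 : ℤ) : ℝ) + 1) * θ) = 0 := by
        push_cast
        have hk' : (m : ℝ) = 2 * k + 1 := by exact_mod_cast hk
        rw [hk'] at hmθ
        have : ((k : ℝ) + 1) * θ = 2 * Real.pi - (k : ℝ) * θ := by linarith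
        rw [this, Real.sin_two_pi_sub]
        ring_nf
      have h4 : ((Polynomial.Chebyshev.S ℝ (k : ℤ)).eval t +
        (Polynomial.Chebyshev.S ℝ ((k : ℤ) - 1)).eval t) * Real.sin θ = 0 := by
        rw [add_mul, h1, h2, h3]
      exact (mul_eq_zero.mp h4).resolve_right hsin
    rw [e1, e2, e3, e4, h0]
    simp

theorem rr_liftable (M : CoxeterMatrix B) : M.IsLiftable (rr M) := by
  intro i j
  rcases Nat.lt_or_ge (M i j) 3 with h | h
  · interval_cases hM : M i j
    · simp
    · have : i = j := by
        by_contra hne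
        exact M.off_diagonal i j hne hM
      subst this
      rw [pow_one]
      ext v : 1
      rw [LinearEquiv.mul_apply]
      exact Module.involutive_reflection _ v
    · have hk : kk M i j = 0 := by
        rw [kk, hM]; simp
      have hk' : kk M j i = 0 := by rw [kk_symm, hk]
      rw [pow_two]
      apply LinearEquiv.toLinearMap_injective
      apply LinearMap.ext
      intro v
      change rr M i (rr M j (rr M i (rr M j v))) = v
      have hc : rr M j (rr M i (rr M j v)) = rr M i v := by
        simp only [rr, Module.reflection_apply, map_sub, map_smul, ff_single, kk_self, hk, hk']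
        module
      rw [hc]
      exact Module.involutive_reflection _ v
  · have hc := cheb_zero (M i j) h (kk M i j * kk M j i - 2) (kk_mul_kk M i j h)
    apply LinearEquiv.toLinearMap_injective
    apply LinearMap.ext
    intro v
    have := Module.reflection_mul_reflection_pow_apply (ff_self M i) (ff_self M j) (M i j) v
      (kk M i j * kk M j i - 2) (by rw [ff_single, ff_single])
    change ((rr M i * rr M j) ^ (M i j)) v = v
    unfold rr
    rw [this, hc.1, hc.2]
    simp

theorem simple_injective : Function.Injective cs.simple := by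
  intro i j hij
  have h := congrArg (cs.lift ⟨rr M, rr_liftable M⟩) hij
  rw [lift_apply_simple, lift_apply_simple] at h
  have h2 := congrArg (fun e => e (Finsupp.single i (1 : ℝ))) h
  simp only [rr, Module.reflection_apply, ff_single, kk_self] at h2
  by_contra hne
  have h3 := congrArg (fun v => v i) h2
  simp only [Finsupp.sub_apply, Finsupp.smul_apply, Finsupp.single_eq_same, smul_eq_mul] at h3
  rw [Finsupp.single_eq_of_ne hne] at h3
  norm_num at h3

end geom

end Pool.Agent.H.MP_330ad9_al
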