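import Pool.Agent.H.MP_330ad9_al.Exchange
import Pool.Agent.H.MP_330ad9_al.GeomRep

/-!
Bruhat order of a Coxeter system: subword property, lifting property.
-/

set_option autoImplicit false

namespace Pool.Agent.H.MP_330ad9_al

open CoxeterSystem

variable {B W : Type*} [Group W] {M : CoxeterMatrix B} (cs : CoxeterSystem M W)

/-- One step of the Bruhat order. -/
def Step (x y : W) : Prop := ∃ t, cs.IsReflection t ∧ x = y * t ∧ cs.length x < cs.length y

/-- The Bruhat order. -/
def Bru (x y : W) : Prop := Relation.ReflTransGen (Step cs) x y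

variable {cs}

theorem Step.length_lt {x y : W} (h : Step cs x y) : cs.length x < cs.length y := by
  rcases h with ⟨_, _, _, h⟩; exact h

theorem Bru.refl (x : W) : Bru cs x x := Relation.ReflTransGen.refl

theorem Bru.trans {x y z : W} (h : Bru cs x y) (h' : Bru cs y z) : Bru cs x z :=
  Relation.ReflTransGen.trans h h'

theorem Step.bru {x y : W} (h : Step cs x y) : Bru cs x y := Relation.ReflTransGen.single h

theorem Bru.length_le {x y : W} (h : Bru cs x y) : cs.length x ≤ cs.length y := by
  induction h with
  | refl => exact le_rfl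
  | tail _ h ih => exact ih.trans h.length_lt.le

theorem Bru.eq_of_length {x y : W} (h : Bru cs x y) (hl : cs.length y ≤ cs.length x) : x = y := by
  rcases Relation.ReflTransGen.cases_tail h with h | ⟨z, hz, hs⟩
  · exact h.symm
  · have h1 : cs.length x ≤ cs.length z := Bru.length_le hz
    have h2 := hs.length_lt
    lia

theorem Step.inv {x y : W} (h : Step cs x y) : Step cs x⁻¹ y⁻¹ := by
  rcases h with ⟨t, ht, rfl, hl⟩
  refine ⟨y * t * y⁻¹, ht.conj y, ?_, ?_⟩
  · rw [mul_inv_rev, ht.inv]; group
  · rw [cs.length_inv, cs.length_inv]; exact hl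

theorem Bru.inv {x y : W} (h : Bru cs x y) : Bru cs x⁻¹ y⁻¹ := by
  induction h with
  | refl => exact Bru.refl _
  | tail _ h ih => exact ih.trans h.inv.bru

theorem step_mul_simple {y : W} {i : B} (h : cs.length (y * cs.simple i) < cs.length y) :
    Step cs (y * cs.simple i) y :=
  ⟨cs.simple i, cs.isReflection_simple i, rfl, h⟩

theorem step_mul_simple' {y : W} {i : B} (h : cs.length y < cs.length (y * cs.simple i)) :
    Step cs y (y * cs.simple i) :=
  ⟨cs.simple i, cs.isReflection_simple i, by simp, h⟩

/-- Every word contains as sublists words for all elements below its product. -/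
theorem Bru.exists_sublist {x y : W} (h : Bru cs x y) :
    ∀ ω : List B, cs.wordProd ω = y → ∃ ω', ω'.Sublist ω ∧ cs.wordProd ω' = x := by
  induction h with
  | refl => intro ω hω; exact ⟨ω, List.Sublist.refl _, hω⟩
  | @tail y z _ h ih =>
    rintro ω rfl
    obtain ⟨t, ht, rfl, hl⟩ := h
    obtain ⟨j, hj, h⟩ := strong_exchange cs ht hl
    obtain ⟨ω', h1, h2⟩ := ih (ω.eraseIdx j) h.symm
    exact ⟨ω', h1.trans (List.eraseIdx_sublist _ _), h2⟩

/-- Any word has a reduced sublist with the same product. -/
theorem exists_reduced_sublist (ω : List B) :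
    ∃ ω', ω'.Sublist ω ∧ cs.IsReduced ω' ∧ cs.wordProd ω' = cs.wordProd ω := by
  induction ω using List.reverseRecOn with
  | nil => exact ⟨[], List.Sublist.refl _, by simp [CoxeterSystem.IsReduced], rfl⟩
  | append_singleton ω i ih =>
    obtain ⟨ω', h1, h2, h3⟩ := ih
    rcases cs.length_mul_simple (cs.wordProd ω') i with h | h
    · refine ⟨ω' ++ [i], h1.append (List.Sublist.refl _), ?_, ?_⟩
      · rw [CoxeterSystem.IsReduced, wordProd_append, wordProd_singleton, h, h2.eq]; simp
      · rw [wordProd_append, h3, wordProd_append]
    · have hl : cs.length (cs.wordProd ω' * cs.simple i) < cs.length (cs.wordProd ω') := by lia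
      obtain ⟨j, hj, he⟩ := strong_exchange cs (cs.isReflection_simple i) hl
      refine ⟨ω'.eraseIdx j, ((List.eraseIdx_sublist _ _).trans h1).trans
        (List.sublist_append_left _ _), ?_, ?_⟩
      · rw [CoxeterSystem.IsReduced, ← he]
        have := List.length_eraseIdx_add_one hj
        rw [h2.eq] at h
        lia
      · rw [← he, h3, wordProd_append, wordProd_singleton]

/-- Key dichotomy for one step. -/
theorem Step.mul_simple {x y : W} (h : Step cs x y) (i : B) :
    Step cs (x * cs.simple i) (y * cs.simple i) ∨ y = x * cs.simple i := by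
  obtain ⟨t, ht, rfl, hl⟩ := h
  set s := cs.simple i with hs
  have ht' : cs.IsReflection (s * t * s) := by
    have := ht.conj s
    rwa [hs, cs.inv_simple, ← hs] at this
  have hxs : y * t * s = (y * s) * (s * t * s) := by
    simp [hs, mul_assoc]
  have hne : cs.length (y * t * s) ≠ cs.length (y * s) := by
    rw [hxs]; exact ht'.length_mul_left_ne _
  rcases lt_or_gt_of_ne hne with hlt | hgt
  · left
    exact ⟨s * t * s, ht', hxs, hlt⟩
  · right
    have h1 := cs.length_mul_simple (y * t) i
    have h2 := cs.length_mul_simple y i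
    rw [← hs] at h1 h2
    have h3 : cs.length (y * t * s) = cs.length y := by lia
    have h4 : cs.length (y * s) + 1 = cs.length y := by lia
    obtain ⟨ω, hω, hωy⟩ := cs.exists_isReduced (y * s)
    have hy : y = cs.wordProd (ω ++ [i]) := by
      rw [wordProd_append, ← hωy, wordProd_singleton, ← hs]; simp [hs]
    have hlen : ω.length + 1 = cs.length y := by
      rw [← hω.eq, ← hωy, h4]
    have hl' : cs.length (cs.wordProd (ω ++ [i]) * t) < cs.length (cs.wordProd (ω ++ [i])) := by
      rw [← hy]; exact hl
    obtain ⟨j, hj, he⟩ := strong_exchange cs ht hl'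
    rw [← hy] at he
    rw [List.length_append, List.length_singleton] at hj
    rcases Nat.lt_or_ge j ω.length with hj' | hj'
    · exfalso
      rw [List.eraseIdx_append_of_lt_length hj', wordProd_append, wordProd_singleton] at he
      have h5 : y * t * s = cs.wordProd (ω.eraseIdx j) := by
        rw [he, hs]; simp
      have h6 := cs.length_wordProd_le (ω.eraseIdx j)
      have h7 := List.length_eraseIdx_add_one hj'
      rw [← h5, h3] at h6
      lia
    · have hj'' : j = ω.length := by lia
      subst hj''
      rw [List.eraseIdx_append_of_length_le le_rfl] at he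
      simp only [Nat.sub_self, List.eraseIdx_cons_zero, List.append_nil] at he
      rw [he, ← hωy]; simp [hs]

theorem Bru.mul_simple {x y : W} (h : Bru cs x y) (i : B) :
    Bru cs (x * cs.simple i) (y * cs.simple i) ∨ Bru cs (x * cs.simple i) y := by
  induction h using Relation.ReflTransGen.head_induction_on with
  | refl => exact Or.inl (Bru.refl _)
  | @head x z h h' ih =>
    rcases h.mul_simple i with h1 | h1
    · rcases ih with ih | ih
      · exact Or.inl (h1.bru.trans ih)
      · exact Or.inr (h1.bru.trans ih)
    · right
      rw [← h1]; exact h'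

theorem Bru.mul_simple' {x y : W} (h : Bru cs x y) (i : B) :
    Bru cs (x * cs.simple i) (y * cs.simple i) ∨ Bru cs x (y * cs.simple i) := by
  induction h with
  | refl => exact Or.inl (Bru.refl _)
  | @tail z y h' h ih =>
    rcases h.mul_simple i with h1 | h1
    · rcases ih with ih | ih
      · exact Or.inl (ih.trans h1.bru)
      · exact Or.inr (ih.trans h1.bru)
    · right
      have : y * cs.simple i = z := by rw [h1]; simp
      rw [this]; exact h'

/-- Lifting, first half. -/
theorem Bru.mul_simple_le {x y : W} (h : Bru cs x y) {i : B} (hy : cs.IsRightDescent y i) :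
    Bru cs (x * cs.simple i) y := by
  rcases h.mul_simple i with h | h
  · exact h.trans (step_mul_simple hy).bru
  · exact h

/-- Lifting, second half. -/
theorem Bru.le_mul_simple {x y : W} (h : Bru cs x y) {i : B} (hx : ¬ cs.IsRightDescent x i) :
    Bru cs x (y * cs.simple i) := by
  rcases h.mul_simple' i with h | h
  · have : cs.length x < cs.length (x * cs.simple i) := by
      rw [CoxeterSystem.not_isRightDescent_iff] at hx; lia
    exact (step_mul_simple' this).bru.trans h
  · exact h

theorem Bru.mul_simple_mul_simple {x y : W} (h : Bru cs x y) {i : B}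
    (hy : ¬ cs.IsRightDescent y i) : Bru cs (x * cs.simple i) (y * cs.simple i) := by
  rcases h.mul_simple i with h | h
  · exact h
  · have : cs.length y < cs.length (y * cs.simple i) := by
      rw [CoxeterSystem.not_isRightDescent_iff] at hy; lia
    exact h.trans (step_mul_simple' this).bru

theorem Bru.mul_simple_mul_simple' {x y : W} (h : Bru cs x y) {i : B}
    (hx : cs.IsRightDescent x i) : Bru cs (x * cs.simple i) (y * cs.simple i) := by
  rcases h.mul_simple' i with h | h
  · exact h
  · exact (step_mul_simple hx).bru.trans h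

/-! Left versions -/

theorem Bru.simple_mul_le {x y : W} (h : Bru cs x y) {i : B} (hy : cs.IsLeftDescent y i) :
    Bru cs (cs.simple i * x) y := by
  have := (h.inv.mul_simple_le (i := i) (cs.isRightDescent_inv_iff.mpr hy)).inv
  simpa using this

theorem Bru.simple_mul_simple_mul {x y : W} (h : Bru cs x y) {i : B}
    (hy : ¬ cs.IsLeftDescent y i) : Bru cs (cs.simple i * x) (cs.simple i * y) := by
  have := (h.inv.mul_simple_mul_simple (i := i) (fun h' => hy (cs.isRightDescent_inv_iff.mp h'))).inv
  simpa using this

theorem Bru.simple_mul_simple_mul' {x y : W} (h : Bru cs x y) {i : B}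
    (hx : cs.IsLeftDescent x i) : Bru cs (cs.simple i * x) (cs.simple i * y) := by
  have := (h.inv.mul_simple_mul_simple' (i := i) (cs.isRightDescent_inv_iff.mpr hx)).inv
  simpa using this

/-- Subword property, other direction. -/
theorem bru_of_sublist {ω ω' : List B} (hω : cs.IsReduced ω) (h : ω'.Sublist ω) :
    Bru cs (cs.wordProd ω') (cs.wordProd ω) := by
  induction ω generalizing ω' with
  | nil => 
    have : ω' = [] := by simpa using h
    rw [this]; exact Bru.refl _
  | cons i ω ih =>
    have hr : cs.IsReduced ω := by simpa using hω.drop 1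
    have hnd : ¬ cs.IsLeftDescent (cs.wordProd ω) i := by
      rw [CoxeterSystem.not_isLeftDescent_iff, ← wordProd_cons, hω.eq, hr.eq]; simp
    rw [wordProd_cons]
    rcases List.sublist_cons_iff.mp h with h | ⟨ω₁, rfl, h'⟩
    · have h1 := ih hr h
      apply h1.trans
      have h2 : cs.length (cs.wordProd ω)⁻¹ < cs.length ((cs.wordProd ω)⁻¹ * cs.simple i) := by
        rw [CoxeterSystem.not_isLeftDescent_iff] at hnd
        rw [← cs.length_inv ((cs.wordProd ω)⁻¹ * cs.simple i)]
        simp [hnd]
      have h3 := (step_mul_simple' h2).inv.bru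
      simpa using h3
    · rw [wordProd_cons]
      exact (ih hr h').simple_mul_simple_mul hnd

theorem bru_mul {a b a' b' : W} (hab : cs.length (a * b) = cs.length a + cs.length b)
    (ha : Bru cs a' a) (hb : Bru cs b' b) : Bru cs (a' * b') (a * b) := by
  obtain ⟨ωa, hωa, rfl⟩ := cs.exists_isReduced a
  obtain ⟨ωb, hωb, rfl⟩ := cs.exists_isReduced b
  obtain ⟨ωa', h1, rfl⟩ := ha.exists_sublist ωa rfl
  obtain ⟨ωb', h2, rfl⟩ := hb.exists_sublist ωb rfl
  rw [← wordProd_append, ← wordProd_append]
  apply bru_of_sublist
  · rw [CoxeterSystem.IsReduced, wordProd_append, hab, hωa.eq, hωb.eq]; simp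
  · exact h1.append h2

/-- Left cancellation for length-additive products. -/
theorem bru_cancel_left (ω : List B) {z v : W}
    (hl : cs.length (cs.wordProd ω * z) = ω.length + cs.length z)
    (h : Bru cs (cs.wordProd ω * z) (cs.wordProd ω * v)) : Bru cs z v := by
  induction ω with
  | nil => simpa using h
  | cons i ω ih =>
    rw [wordProd_cons, mul_assoc, List.length_cons] at hl
    rw [wordProd_cons, mul_assoc, mul_assoc] at h
    have h1 : cs.length (cs.wordProd ω * z) ≤ ω.length + cs.length z :=
      (cs.length_mul_le _ _).trans (by have := cs.length_wordProd_le ω; lia)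
    have h2 := cs.length_simple_mul (cs.wordProd ω * z) i
    have h3 : cs.length (cs.wordProd ω * z) = ω.length + cs.length z := by lia
    apply ih h3
    have h4 : cs.IsLeftDescent (cs.simple i * (cs.wordProd ω * z)) i := by
      rw [CoxeterSystem.IsLeftDescent]; simp only [simple_mul_simple_cancel_left]; lia
    simpa using h.simple_mul_simple_mul' h4

end Pool.Agent.H.MP_330ad9_al
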