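import Mathlib

/-!
Definitions for Billey-Postnikov decompositions in an arbitrary Coxeter system.
Here `cs : CoxeterSystem M W` is a Coxeter system in the sense of Mathlib; the simple reflections
are `cs.simple i` for `i : B`, and subsets of `S` are given by sets of indices `J : Set B`.
-/

set_option autoImplicit false

namespace Pool.Agent.H.MP_330ad9_al

variable {B W : Type*} [Group W] {M : CoxeterMatrix B}

/-- The standard parabolic subgroup `W_J` generated by the simple reflections in `J`. -/
def parabolic (cs : CoxeterSystem M W) (J : Set B) : Subgroup W :=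
  Subgroup.closure (cs.simple '' J)

/-- The set `W^J` of all `v` with `ℓ(v s) > ℓ(v)` for every `s ∈ J`. -/
def minReps (cs : CoxeterSystem M W) (J : Set B) : Set W :=
  {v | ∀ i ∈ J, cs.length v < cs.length (v * cs.simple i)}

/-- The support of `v`: the simple reflections occurring in some reduced word of `v`. -/
def support (cs : CoxeterSystem M W) (v : W) : Set B :=
  {i | ∃ ω : List B, cs.IsReduced ω ∧ cs.wordProd ω = v ∧ i ∈ ω}

/-- The left descent set of `v`. -/
def leftDescents (cs : CoxeterSystem M W) (v : W) : Set B :=
  {i | cs.length (cs.simple i * v) < cs.length v}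

/-- `BP cs w` is the set of all `J` such that the parabolic factorisation `w = u v`, with
`u ∈ W^J` and `v ∈ W_J`, satisfies `supp(u) ∩ J ⊆ D_L(v)`. -/
def BP (cs : CoxeterSystem M W) (w : W) : Set (Set B) :=
  {J | ∃ u ∈ minReps cs J, ∃ v ∈ parabolic cs J, w = u * v ∧
    support cs u ∩ J ⊆ leftDescents cs v}

end Pool.Agent.H.MP_330ad9_al
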