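import Mathlib

/-!
Strong exchange property for Coxeter systems, and injectivity of the simple reflections.
-/

set_option autoImplicit false

namespace Pool.Agent.H.MP_330ad9_al

open CoxeterSystem

variable {B W : Type*} [Group W] {M : CoxeterMatrix B} (cs : CoxeterSystem M W)

section perm

open scoped Classical in
/-- The involution of `W × ZMod 2` attached to the simple reflection `i`. -/
noncomputable def etaFun (i : B) (p : W × ZMod 2) : W × ZMod 2 :=
  (cs.simple i * p.1 * cs.simple i, p.2 + if p.1 = cs.simple i then 1 else 0)

theorem etaFun_etaFun (i : B) (p : W × ZMod 2) : etaFun cs i (etaFun cs i p) = p := by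
  classical
  rcases p with ⟨t, z⟩
  unfold etaFun
  ext
  · simp [mul_assoc]
  · have h : (cs.simple i * t * cs.simple i = cs.simple i) ↔ t = cs.simple i := by
      constructor
      · intro h
        have := congrArg (fun x => cs.simple i * x * cs.simple i) h
        simpa [mul_assoc] using this
      · rintro rfl; simp
    simp only [h]
    split_ifs
    · rw [add_assoc, show (1 : ZMod 2) + 1 = 0 from rfl, add_zero]
    · simp

/-- The permutation of `W × ZMod 2` attached to the simple reflection `i`. -/
noncomputable def eta (i : B) : Equiv.Perm (W × ZMod 2) where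
  toFun := etaFun cs i
  invFun := etaFun cs i
  left_inv := etaFun_etaFun cs i
  right_inv := etaFun_etaFun cs i

open scoped Classical in
theorem eta_apply (i : B) (t : W) (z : ZMod 2) :
    eta cs i (t, z) = (cs.simple i * t * cs.simple i, z + if t = cs.simple i then 1 else 0) := rfl

open scoped Classical in
theorem eta_mul_pow_apply (i j : B) (m : ℕ) (t : W) (z : ZMod 2) :
    ((eta cs i * eta cs j) ^ m) (t, z) =
      ((cs.simple i * cs.simple j) ^ m * t * ((cs.simple i * cs.simple j) ^ m)⁻¹,
        z + ∑ p ∈ Finset.range (2 * m),
          if t = cs.simple j * (cs.simple i * cs.simple j) ^ p then 1 else 0) := by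
  induction m with
  | zero => simp
  | succ m ih =>
    rw [pow_succ', Equiv.Perm.mul_apply, ih, Equiv.Perm.mul_apply, eta_apply, eta_apply]
    set r := cs.simple i * cs.simple j with hr
    have hrj : cs.simple j * r * cs.simple j = r⁻¹ := by
      rw [hr]; simp [mul_assoc]
    have hrpow : ∀ k : ℕ, cs.simple j * r ^ k * cs.simple j = (r ^ k)⁻¹ := by
      intro k
      have h1 : cs.simple j * r ^ k * (cs.simple j)⁻¹ = (cs.simple j * r * (cs.simple j)⁻¹) ^ k := by
        rw [conj_pow]
      rw [cs.inv_simple] at h1
      rw [h1, hrj, inv_pow]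
    have hrpow' : ∀ k : ℕ, (r ^ k)⁻¹ * cs.simple j = cs.simple j * r ^ k := by
      intro k
      rw [← hrpow k]; simp [mul_assoc]
    ext
    · simp only
      rw [pow_succ' r m]
      simp [hr, mul_assoc]
    · simp only
      rw [show 2 * (m + 1) = 2 * m + 1 + 1 by ring, Finset.sum_range_succ, Finset.sum_range_succ]
      have e1 : (r ^ m * t * (r ^ m)⁻¹ = cs.simple j) ↔ t = cs.simple j * r ^ (2 * m) := by
        constructor
        · intro h
          have : t = (r ^ m)⁻¹ * cs.simple j * r ^ m := by
            rw [← h]; group
          rw [this, hrpow', mul_assoc, ← pow_add, two_mul]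
        · intro h
          rw [h]
          have : cs.simple j * r ^ (2 * m) = (r ^ m)⁻¹ * cs.simple j * r ^ m := by
            rw [hrpow', mul_assoc, ← pow_add, two_mul]
          rw [this]; group
      have e2 : (cs.simple j * (r ^ m * t * (r ^ m)⁻¹) * cs.simple j = cs.simple i) ↔
          t = cs.simple j * r ^ (2 * m + 1) := by
        have e3 : cs.simple j * cs.simple i * cs.simple j = cs.simple j * r := by
          rw [hr]; simp [mul_assoc]
        have e4 : cs.simple j * r ^ (2 * m + 1) = (r ^ m)⁻¹ * (cs.simple j * cs.simple i * cs.simple j) * r ^ m := by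
          have e5 : r ^ (2 * m + 1) = r ^ m * r * r ^ m := by
            rw [← pow_succ, ← pow_add]; congr 1; ring
          rw [e3, ← mul_assoc, hrpow', e5]
          simp only [mul_assoc]
        rw [e4]
        constructor
        · intro h
          rw [← h]
          simp [mul_assoc]
        · intro h
          rw [h]
          simp [mul_assoc]
      simp only [e1, e2]
      ring

theorem eta_liftable : M.IsLiftable (eta cs) := by
  classical
  intro i j
  ext ⟨t, z⟩ : 1
  rw [eta_mul_pow_apply]
  simp only [simple_mul_simple_pow, one_mul, inv_one, mul_one, Equiv.Perm.coe_one, id_eq]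
  have : ∑ p ∈ Finset.range (2 * M i j),
      (if t = cs.simple j * (cs.simple i * cs.simple j) ^ p then (1 : ZMod 2) else 0) = 0 := by
    rw [two_mul, Finset.sum_range_add]
    have : ∀ p, (cs.simple i * cs.simple j) ^ (M i j + p) = (cs.simple i * cs.simple j) ^ p := by
      intro p; rw [pow_add]; simp
    simp only [this]
    rw [← two_mul, show (2 : ZMod 2) = 0 from rfl, zero_mul]
  rw [this]; simp

/-- The action of `W` on `W × ZMod 2`. -/
noncomputable def etaHom : W →* Equiv.Perm (W × ZMod 2) := cs.lift ⟨eta cs, eta_liftable cs⟩

/-- The parity attached to `w` and `t`. -/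
noncomputable def par (w t : W) : ZMod 2 := (etaHom cs w (t, 0)).2

theorem etaHom_simple (i : B) : etaHom cs (cs.simple i) = eta cs i := by
  simp [etaHom]

theorem etaHom_apply (w t : W) (z : ZMod 2) :
    etaHom cs w (t, z) = (w * t * w⁻¹, z + par cs w t) := by
  classical
  induction w using cs.simple_induction_left generalizing t z with
  | one => simp [par]
  | mul_simple_left w i ih =>
    have key : ∀ z, etaHom cs (cs.simple i * w) (t, z) = 
        (cs.simple i * (w * t * w⁻¹) * cs.simple i, (z + par cs w t) + 
          if (w * t * w⁻¹) = cs.simple i then 1 else 0) := by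
      intro z
      rw [map_mul, Equiv.Perm.mul_apply, ih, etaHom_simple, eta_apply]
    have : par cs (cs.simple i * w) t = par cs w t + 
          if (w * t * w⁻¹) = cs.simple i then 1 else 0 := by
      rw [par, key 0, zero_add]
    rw [key, this]
    ext
    · simp [mul_assoc]
    · simp [add_assoc]

theorem par_mul (x y t : W) : par cs (x * y) t = par cs x (y * t * y⁻¹) + par cs y t := by
  rw [par, map_mul, Equiv.Perm.mul_apply, etaHom_apply, etaHom_apply]
  simp [add_comm]

theorem par_one (t : W) : par cs 1 t = 0 := by simp [par]

open scoped Classical in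
theorem par_simple (i : B) (t : W) : par cs (cs.simple i) t = if t = cs.simple i then 1 else 0 := by
  rw [par, etaHom_simple, eta_apply]; simp

theorem par_reflection {t : W} (ht : cs.IsReflection t) : par cs t t = 1 := by
  rcases ht with ⟨u, i, rfl⟩
  set t := u * cs.simple i * u⁻¹ with ht
  have h1 : par cs t t = par cs (u * cs.simple i) (u⁻¹ * t * u) + par cs u⁻¹ t := by
    conv_lhs => rw [ht, par_mul, ← ht]
    simp
  have h2 : u⁻¹ * t * u = cs.simple i := by rw [ht]; group
  have h3 : par cs (u * cs.simple i) (cs.simple i) = par cs u (cs.simple i) + 1 := by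
    rw [par_mul, par_simple]
    simp
  have h4 : par cs u (cs.simple i) + par cs u⁻¹ t = 0 := by
    have := par_mul cs u u⁻¹ t
    rw [mul_inv_cancel, par_one, inv_inv, h2] at this
    exact this.symm
  rw [h1, h2, h3, add_right_comm, h4, zero_add]

theorem par_wordProd (ω : List B) (t : W) (h : t ∉ cs.rightInvSeq ω) :
    par cs (cs.wordProd ω) t = 0 := by
  classical
  induction ω with
  | nil => simp [par_one]
  | cons i ω ih =>
    rw [CoxeterSystem.rightInvSeq, List.mem_cons, not_or] at h
    rw [CoxeterSystem.wordProd_cons, par_mul, ih h.2, par_simple, if_neg, add_zero]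
    intro h'
    apply h.1
    rw [← h']; group

/-- Strong exchange: a right inversion of `π ω` occurs in the right inversion sequence of `ω`,
whether or not `ω` is reduced. -/
theorem mem_rightInvSeq {ω : List B} {t : W} (ht : cs.IsReflection t)
    (hlt : cs.length (cs.wordProd ω * t) < cs.length (cs.wordProd ω)) :
    t ∈ cs.rightInvSeq ω := by
  by_contra hmem
  have h0 := par_wordProd cs ω t hmem
  have h1 : par cs (cs.wordProd ω * t) t = 1 := by
    rw [par_mul, par_reflection cs ht, mul_assoc, mul_inv_cancel, mul_one, h0, zero_add]
  obtain ⟨ω', hω', heq⟩ := cs.exists_isReduced (cs.wordProd ω * t)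
  have h2 : t ∈ cs.rightInvSeq ω' := by
    by_contra h3
    rw [heq, par_wordProd cs ω' t h3] at h1
    exact absurd h1 (by decide)
  have h3 := (cs.isRightInversion_of_mem_rightInvSeq hω' h2).2
  rw [← heq, mul_assoc, ht.mul_self, mul_one] at h3
  exact absurd h3 (not_lt.mpr hlt.le)

/-- Strong exchange property. -/
theorem strong_exchange {ω : List B} {t : W} (ht : cs.IsReflection t)
    (hlt : cs.length (cs.wordProd ω * t) < cs.length (cs.wordProd ω)) :
    ∃ j < ω.length, cs.wordProd ω * t = cs.wordProd (ω.eraseIdx j) := by
  have hm := mem_rightInvSeq cs ht hlt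
  obtain ⟨j, hj, h⟩ := List.mem_iff_getElem.mp hm
  rw [cs.length_rightInvSeq] at hj
  refine ⟨j, hj, ?_⟩
  rw [← cs.wordProd_mul_getD_rightInvSeq, List.getD_eq_getElem _ _ (by simpa using hj), h]

end perm

end Pool.Agent.H.MP_330ad9_al
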