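import Pool.Agent.H.MP_330ad9_al.Defs
import Pool.Agent.H.MP_330ad9_al.Bruhat

/-!
Parabolic factorisation and closure of `BP(w)` under unions and intersections.
-/

set_option autoImplicit false

namespace Pool.Agent.H.MP_330ad9_al

open CoxeterSystem

variable {B W : Type*} [Group W] {M : CoxeterMatrix B} {cs : CoxeterSystem M W}

/-! ### Words in parabolic subgroups -/

theorem simple_mem_parabolic {J : Set B} {i : B} (hi : i ∈ J) :
    cs.simple i ∈ parabolic cs J :=
  Subgroup.subset_closure ⟨i, hi, rfl⟩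

theorem parabolic_mono {J K : Set B} (h : J ⊆ K) : parabolic cs J ≤ parabolic cs K :=
  Subgroup.closure_mono (Set.image_mono h)

theorem wordProd_mem_parabolic {J : Set B} {ω : List B} (h : ∀ i ∈ ω, i ∈ J) :
    cs.wordProd ω ∈ parabolic cs J := by
  induction ω with
  | nil => simp [one_mem]
  | cons i ω ih =>
    rw [wordProd_cons]
    exact mul_mem (simple_mem_parabolic (h i (by simp))) (ih (fun j hj => h j (by simp [hj])))

theorem exists_word_of_mem_parabolic {J : Set B} {x : W} (hx : x ∈ parabolic cs J) :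
    ∃ ω : List B, (∀ i ∈ ω, i ∈ J) ∧ cs.wordProd ω = x := by
  induction hx using Subgroup.closure_induction with
  | mem x hx =>
    obtain ⟨i, hi, rfl⟩ := hx
    exact ⟨[i], by simpa using hi, by simp⟩
  | one => exact ⟨[], by simp, by simp⟩
  | mul x y _ _ ihx ihy =>
    obtain ⟨ω, h1, rfl⟩ := ihx
    obtain ⟨ω', h2, rfl⟩ := ihy
    refine ⟨ω ++ ω', ?_, by rw [wordProd_append]⟩
    intro i hi
    rcases List.mem_append.mp hi with h | h
    · exact h1 i h
    · exact h2 i h
  | inv x _ ih =>
    obtain ⟨ω, h1, rfl⟩ := ih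
    exact ⟨ω.reverse, by simpa using h1, by rw [wordProd_reverse]⟩

theorem exists_reduced_of_mem_parabolic {J : Set B} {x : W} (hx : x ∈ parabolic cs J) :
    ∃ ω : List B, cs.IsReduced ω ∧ (∀ i ∈ ω, i ∈ J) ∧ cs.wordProd ω = x := by
  obtain ⟨ω, h1, rfl⟩ := exists_word_of_mem_parabolic hx
  obtain ⟨ω', h2, h3, h4⟩ := exists_reduced_sublist (cs := cs) ω
  exact ⟨ω', h3, fun i hi => h1 i (h2.subset hi), h4⟩

theorem bru_one (x : W) : Bru cs 1 x := by
  obtain ⟨ω, hω, rfl⟩ := cs.exists_isReduced x
  simpa using bru_of_sublist hω (List.nil_sublist ω)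

theorem bru_simple_of_mem {ω : List B} (hω : cs.IsReduced ω) {i : B} (hi : i ∈ ω) :
    Bru cs (cs.simple i) (cs.wordProd ω) := by
  have := bru_of_sublist (cs := cs) hω (List.singleton_sublist.mpr hi)
  simpa using this

/-- If `s_i ≤ x ∈ W_J` then `i ∈ J`. -/
theorem mem_of_simple_bru {J : Set B} {x : W} (hx : x ∈ parabolic cs J) {i : B}
    (h : Bru cs (cs.simple i) x) : i ∈ J := by
  obtain ⟨ω, _, h2, rfl⟩ := exists_reduced_of_mem_parabolic hx
  obtain ⟨ω', h3, h4⟩ := h.exists_sublist ω rfl
  obtain ⟨ω'', h5, h6, h7⟩ := exists_reduced_sublist (cs := cs) ω'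
  rw [h4] at h7
  have h8 : ω''.length = 1 := by rw [← h6.eq, h7, cs.length_simple]
  obtain ⟨j, rfl⟩ := List.length_eq_one_iff.mp h8
  rw [wordProd_singleton] at h7
  have h9 := simple_injective cs h7
  subst h9
  exact h2 j ((h5.trans h3).subset (by simp))

theorem letters_mem {J : Set B} {ω : List B} (hω : cs.IsReduced ω)
    (hx : cs.wordProd ω ∈ parabolic cs J) : ∀ i ∈ ω, i ∈ J :=
  fun _ hi => mem_of_simple_bru hx (bru_simple_of_mem hω hi)

theorem parabolic_inter {J K : Set B} {x : W} (h1 : x ∈ parabolic cs J)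
    (h2 : x ∈ parabolic cs K) : x ∈ parabolic cs (J ∩ K) := by
  obtain ⟨ω, hω, rfl⟩ := cs.exists_isReduced x
  exact wordProd_mem_parabolic (fun i hi => ⟨letters_mem hω h1 i hi, letters_mem hω h2 i hi⟩)

/-! ### Parabolic factorisation -/

theorem exists_factor (J : Set B) (w : W) :
    ∃ u ∈ minReps cs J, ∃ v ∈ parabolic cs J, w = u * v := by
  induction hn : cs.length w using Nat.strong_induction_on generalizing w with
  | _ n ih =>
    by_cases h : w ∈ minReps cs J
    · exact ⟨w, h, 1, one_mem _, by simp⟩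
    · simp only [minReps, Set.mem_ofPred_eq, not_forall, not_lt] at h
      obtain ⟨i, hi, hl⟩ := h
      have hl' : cs.length (w * cs.simple i) < n := by
        have := cs.length_mul_simple_ne w i
        lia
      obtain ⟨u, hu, v, hv, he⟩ := ih _ hl' (w * cs.simple i) rfl
      refine ⟨u, hu, v * cs.simple i, mul_mem hv (simple_mem_parabolic hi), ?_⟩
      rw [← mul_assoc, ← he]; simp

theorem length_add_of_min {J : Set B} {u : W}
    (hu : ∀ x ∈ parabolic cs J, cs.length u ≤ cs.length (u * x)) (ω : List B)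
    (hω : cs.IsReduced ω) (hJ : ∀ i ∈ ω, i ∈ J) :
    cs.length (u * cs.wordProd ω) = cs.length u + ω.length := by
  induction ω using List.reverseRecOn with
  | nil => simp
  | append_singleton ω i ih =>
    have hr : cs.IsReduced ω := by simpa using hω.take ω.length
    have hJ' : ∀ j ∈ ω, j ∈ J := fun j hj => hJ j (by simp [hj])
    have ih' := ih hr hJ'
    rw [wordProd_append, wordProd_singleton, ← mul_assoc, List.length_append,
      List.length_singleton]
    rcases cs.length_mul_simple (u * cs.wordProd ω) i with h | h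
    · lia
    · exfalso
      obtain ⟨ωu, hωu, hu'⟩ := cs.exists_isReduced u
      have hl : cs.length (cs.wordProd (ωu ++ ω) * cs.simple i) <
          cs.length (cs.wordProd (ωu ++ ω)) := by
        rw [wordProd_append, ← hu']; lia
      obtain ⟨j, hj, he⟩ := strong_exchange cs (cs.isReflection_simple i) hl
      rw [List.length_append] at hj
      rcases Nat.lt_or_ge j ωu.length with hj' | hj'
      · rw [List.eraseIdx_append_of_lt_length hj', wordProd_append, wordProd_append, ← hu'] at he
        have h1 : cs.wordProd (ωu.eraseIdx j) =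
            u * (cs.wordProd ω * cs.simple i * (cs.wordProd ω)⁻¹) := by
          rw [eq_comm, ← mul_assoc, ← mul_assoc, he]; group
        have h2 := hu (cs.wordProd ω * cs.simple i * (cs.wordProd ω)⁻¹)
          (mul_mem (mul_mem (wordProd_mem_parabolic hJ')
            (simple_mem_parabolic (hJ i (by simp)))) (inv_mem (wordProd_mem_parabolic hJ')))
        rw [← h1] at h2
        have h3 := cs.length_wordProd_le (ωu.eraseIdx j)
        have h4 := List.length_eraseIdx_add_one hj'
        rw [← hωu.eq, ← hu'] at h4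
        lia
      · rw [List.eraseIdx_append_of_length_le hj', wordProd_append, wordProd_append, ← hu',
          mul_assoc] at he
        have h1 := mul_left_cancel he
        have h2 := cs.length_wordProd_le (ω.eraseIdx (j - ωu.length))
        rw [← h1, ← wordProd_singleton, ← wordProd_append, hω.eq] at h2
        have h3 := List.length_eraseIdx_le ω (j - ωu.length)
        rw [List.length_append, List.length_singleton] at h2
        lia

theorem min_of_mem_minReps {J : Set B} {u : W} (hu : u ∈ minReps cs J) :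
    ∀ x ∈ parabolic cs J, cs.length u ≤ cs.length (u * x) := by
  -- choose `x₀` minimising `ℓ (u x₀)`
  have hex : ∃ n, ∃ x ∈ parabolic cs J, cs.length (u * x) = n := ⟨_, 1, one_mem _, rfl⟩
  classical
  obtain ⟨x₀, hx₀, hn⟩ := Nat.find_spec hex
  have hmin : ∀ x ∈ parabolic cs J, cs.length (u * x₀) ≤ cs.length (u * x) := by
    intro x hx
    rw [hn]
    exact Nat.find_min' hex ⟨x, hx, rfl⟩
  have hmin' : ∀ x ∈ parabolic cs J, cs.length (u * x₀) ≤ cs.length (u * x₀ * x) := by
    intro x hx
    rw [mul_assoc]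
    exact hmin _ (mul_mem hx₀ hx)
  obtain ⟨ω, h1, h2, h3⟩ := exists_reduced_of_mem_parabolic (inv_mem hx₀)
  have h4 := length_add_of_min hmin' ω h1 h2
  rcases List.eq_nil_or_concat ω with rfl | ⟨ω', i, rfl⟩
  · have : x₀ = 1 := by simpa using h3
    subst this
    simpa using hmin
  · exfalso
    rw [List.concat_eq_append] at h1 h2 h3 h4
    have h5 : cs.IsReduced ω' := by simpa using h1.take ω'.length
    have h6 := length_add_of_min hmin' ω' h5 (fun j hj => h2 j (by simp [hj]))
    have h7 := hu i (h2 i (by simp))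
    rw [h3] at h4
    have h8 : u * x₀ * cs.wordProd ω' = u * cs.simple i := by
      have : cs.wordProd ω' = x₀⁻¹ * cs.simple i := by
        rw [← h3, wordProd_append, wordProd_singleton]; simp
      rw [this]; group
    rw [h8] at h6
    rw [mul_inv_cancel_right, List.length_append, List.length_singleton] at h4
    lia

theorem length_mul_of_mem {J : Set B} {u v : W} (hu : u ∈ minReps cs J)
    (hv : v ∈ parabolic cs J) : cs.length (u * v) = cs.length u + cs.length v := by
  obtain ⟨ω, h1, h2, rfl⟩ := exists_reduced_of_mem_parabolic hv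
  rw [length_add_of_min (min_of_mem_minReps hu) ω h1 h2, h1.eq]

theorem factor_unique {J : Set B} {u v u' v' : W} (hu : u ∈ minReps cs J)
    (hv : v ∈ parabolic cs J) (hu' : u' ∈ minReps cs J) (hv' : v' ∈ parabolic cs J)
    (h : u * v = u' * v') : u = u' ∧ v = v' := by
  have h1 : u' = u * (v * v'⁻¹) := by rw [← mul_assoc, h]; group
  have h2 := length_mul_of_mem hu (mul_mem hv (inv_mem hv'))
  have h3 : u = u' * (v * v'⁻¹)⁻¹ := by rw [h1]; group
  have h4 := length_mul_of_mem hu' (inv_mem (mul_mem hv (inv_mem hv')))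
  rw [← h1] at h2
  rw [← h3, cs.length_inv] at h4
  have h5 : cs.length (v * v'⁻¹) = 0 := by lia
  rw [cs.length_eq_zero_iff] at h5
  have h6 : v = v' := by rwa [mul_inv_eq_one] at h5
  refine ⟨?_, h6⟩
  rw [h1, h5, mul_one]

section choice

variable (cs)

/-- The component of `w` in `W^J`. -/
noncomputable def lp (J : Set B) (w : W) : W := (exists_factor (cs := cs) J w).choose

/-- The component of `w` in `W_J`. -/
noncomputable def rp (J : Set B) (w : W) : W :=
  (exists_factor (cs := cs) J w).choose_spec.2.choose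

theorem lp_mem (J : Set B) (w : W) : lp cs J w ∈ minReps cs J :=
  (exists_factor (cs := cs) J w).choose_spec.1

theorem rp_mem (J : Set B) (w : W) : rp cs J w ∈ parabolic cs J :=
  (exists_factor (cs := cs) J w).choose_spec.2.choose_spec.1

theorem lp_mul_rp (J : Set B) (w : W) : lp cs J w * rp cs J w = w :=
  (exists_factor (cs := cs) J w).choose_spec.2.choose_spec.2.symm

variable {cs}

theorem lp_rp_eq {J : Set B} {w u v : W} (hu : u ∈ minReps cs J) (hv : v ∈ parabolic cs J)
    (h : w = u * v) : lp cs J w = u ∧ rp cs J w = v :=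
  factor_unique (lp_mem cs J w) (rp_mem cs J w) hu hv (by rw [lp_mul_rp, h])

theorem length_eq_lp_rp (J : Set B) (w : W) :
    cs.length w = cs.length (lp cs J w) + cs.length (rp cs J w) := by
  conv_lhs => rw [← lp_mul_rp cs J w]
  exact length_mul_of_mem (lp_mem cs J w) (rp_mem cs J w)

end choice

/-! ### Bruhat order and projections -/

theorem bru_left_of_mem {J : Set B} {z u v : W} (hz : z ∈ minReps cs J)
    (hv : v ∈ parabolic cs J) (h : Bru cs z (u * v)) : Bru cs z u := by
  obtain ⟨ω, h1, rfl⟩ := exists_word_of_mem_parabolic hv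
  clear hv
  induction ω using List.reverseRecOn with
  | nil => simpa using h
  | append_singleton ω i ih =>
    refine ih (fun j hj => h1 j (by simp [hj])) ?_
    have hnd : ¬ cs.IsRightDescent z i := by
      rw [CoxeterSystem.IsRightDescent, not_lt]
      exact (hz i (h1 i (by simp))).le
    have := h.le_mul_simple hnd
    rw [wordProd_append, wordProd_singleton, ← mul_assoc, simple_mul_simple_cancel_right] at this
    exact this

theorem lp_bru (J : Set B) (w : W) : Bru cs (lp cs J w) w := by
  have := bru_mul (cs := cs) (length_mul_of_mem (lp_mem cs J w) (rp_mem cs J w))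
    (Bru.refl _) (bru_one _)
  rwa [mul_one, lp_mul_rp] at this

theorem rp_bru (J : Set B) (w : W) : Bru cs (rp cs J w) w := by
  have := bru_mul (cs := cs) (length_mul_of_mem (lp_mem cs J w) (rp_mem cs J w))
    (bru_one _) (Bru.refl _)
  rwa [one_mul, lp_mul_rp] at this

theorem lp_bru_lp {J : Set B} {x w : W} (h : Bru cs x w) : Bru cs (lp cs J x) (lp cs J w) := by
  have h1 := (lp_bru (cs := cs) J x).trans h
  rw [← lp_mul_rp cs J w] at h1
  exact bru_left_of_mem (lp_mem cs J x) (rp_mem cs J w) h1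

/-- The characterisation of BP decompositions through the Bruhat order. -/
def Good (cs : CoxeterSystem M W) (w : W) (J : Set B) : Prop :=
  ∀ x ∈ parabolic cs J, Bru cs x w → Bru cs x (rp cs J w)

theorem good_of_mem_BP {w : W} {J : Set B} (h : J ∈ BP cs w) : Good cs w J := by
  obtain ⟨u, hu, v, hv, hw, hs⟩ := h
  obtain ⟨_, hr⟩ := lp_rp_eq hu hv hw
  intro x hx hb
  rw [hr]
  obtain ⟨ωu, h1, h1'⟩ := cs.exists_isReduced u
  obtain ⟨ωv, h2, h2'⟩ := cs.exists_isReduced v
  have hw' : cs.wordProd (ωu ++ ωv) = w := by rw [wordProd_append, ← h1', ← h2', hw]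
  obtain ⟨ω', h3, h4⟩ := hb.exists_sublist _ hw'
  obtain ⟨ω'', h5, h6, h7⟩ := exists_reduced_sublist (cs := cs) ω'
  rw [h4] at h7
  have h8 : ∀ i ∈ ω'', i ∈ J := letters_mem h6 (by rw [h7]; exact hx)
  obtain ⟨ω1, ω2, h9, h10, h11⟩ := List.sublist_append_iff.mp (h5.trans h3)
  have h12 : ∀ i ∈ ω1, i ∈ leftDescents cs v := by
    intro i hi
    apply hs
    exact ⟨⟨ωu, h1, h1'.symm, h10.subset hi⟩, h8 i (by rw [h9]; simp [hi])⟩
  rw [← h7, h9, wordProd_append]
  have h13 : Bru cs (cs.wordProd ω2) v := by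
    rw [h2']; exact bru_of_sublist h2 h11
  clear h9 h10
  induction ω1 with
  | nil => simpa using h13
  | cons i ω1 ih =>
    rw [wordProd_cons, mul_assoc]
    exact (ih (fun j hj => h12 j (by simp [hj]))).simple_mul_le (h12 i (by simp))

theorem mem_BP_of_good {w : W} {J : Set B} (h : Good cs w J) : J ∈ BP cs w := by
  refine ⟨lp cs J w, lp_mem cs J w, rp cs J w, rp_mem cs J w, (lp_mul_rp cs J w).symm, ?_⟩
  rintro i ⟨⟨ω, h1, h2, h3⟩, hi⟩
  have h4 : Bru cs (cs.simple i) (lp cs J w) := by
    rw [← h2]; exact bru_simple_of_mem h1 h3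
  have h5 := bru_mul (cs := cs) (length_mul_of_mem (lp_mem cs J w) (rp_mem cs J w))
    h4 (Bru.refl _)
  rw [lp_mul_rp] at h5
  have h6 := (h _ (mul_mem (simple_mem_parabolic hi) (rp_mem cs J w)) h5).length_le
  have h7 := cs.length_simple_mul_ne (rp cs J w) i
  exact lt_of_le_of_ne h6 h7

theorem mem_BP_iff {w : W} {J : Set B} : J ∈ BP cs w ↔ Good cs w J :=
  ⟨good_of_mem_BP, mem_BP_of_good⟩

theorem mul_mem_minReps {J K : Set B} (hJK : J ⊆ K) {u c : W} (hu : u ∈ minReps cs K)
    (hc : c ∈ minReps cs J) (hcK : c ∈ parabolic cs K) : u * c ∈ minReps cs J := by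
  intro i hi
  rw [mul_assoc, length_mul_of_mem hu hcK,
    length_mul_of_mem hu (mul_mem hcK (simple_mem_parabolic (hJK hi)))]
  have := hc i hi
  lia

theorem minReps_of_mul {J K : Set B} (hJK : J ⊆ K) {u c : W} (hu : u ∈ minReps cs K)
    (hcK : c ∈ parabolic cs K) (h : u * c ∈ minReps cs J) : c ∈ minReps cs J := by
  intro i hi
  have := h i hi
  rw [mul_assoc, length_mul_of_mem hu hcK,
    length_mul_of_mem hu (mul_mem hcK (simple_mem_parabolic (hJK hi)))] at this
  lia

theorem rp_rp {J K : Set B} (hJK : J ⊆ K) (w : W) : rp cs J (rp cs K w) = rp cs J w := by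
  have h1 : lp cs J (rp cs K w) ∈ parabolic cs K := by
    have : lp cs J (rp cs K w) = rp cs K w * (rp cs J (rp cs K w))⁻¹ := by
      rw [eq_mul_inv_iff_mul_eq, lp_mul_rp]
    rw [this]
    exact mul_mem (rp_mem cs K w) (inv_mem (parabolic_mono hJK (rp_mem cs J _)))
  have h2 := mul_mem_minReps hJK (lp_mem cs K w) (lp_mem cs J (rp cs K w)) h1
  refine (lp_rp_eq h2 (rp_mem cs J (rp cs K w)) ?_).2.symm
  rw [mul_assoc, lp_mul_rp, lp_mul_rp]

/-! ### Unions -/

theorem good_union {w : W} {J K : Set B} (hJ : Good cs w J) (hK : Good cs w K) :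
    Good cs w (J ∪ K) := by
  intro x hx hb
  -- one factor at a time
  have key : ∀ L : Set B, L ⊆ J ∪ K → Good cs w L → ∀ x, x ∈ parabolic cs (J ∪ K) → Bru cs x w →
      (lp cs L x ∈ parabolic cs (J ∪ K) → Bru cs (lp cs L x) w →
        Bru cs (lp cs L x) (rp cs (J ∪ K) w)) → Bru cs x (rp cs (J ∪ K) w) := by
    intro L hL hG x hx hb ih
    have h1 : rp cs L x ∈ parabolic cs (J ∪ K) := parabolic_mono hL (rp_mem cs L x)
    have h2 : lp cs L x ∈ parabolic cs (J ∪ K) := by
      have : lp cs L x = x * (rp cs L x)⁻¹ := by rw [eq_mul_inv_iff_mul_eq, lp_mul_rp]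
      rw [this]; exact mul_mem hx (inv_mem h1)
    have h3 := ih h2 ((lp_bru L x).trans hb)
    have h4 := hG _ (rp_mem cs L x) ((rp_bru L x).trans hb)
    rw [← rp_rp hL w] at h4
    have h5 : Bru cs (lp cs L x) (lp cs L (rp cs (J ∪ K) w)) := by
      rw [← lp_mul_rp cs L (rp cs (J ∪ K) w)] at h3
      exact bru_left_of_mem (lp_mem cs L x) (rp_mem cs L _) h3
    have h6 := bru_mul (cs := cs) (length_mul_of_mem (lp_mem cs L (rp cs (J ∪ K) w))
      (rp_mem cs L (rp cs (J ∪ K) w))) h5 h4
    rwa [lp_mul_rp, lp_mul_rp] at h6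
  induction hn : cs.length x using Nat.strong_induction_on generalizing x with
  | _ n ih =>
    by_cases hx1 : x = 1
    · rw [hx1]; exact bru_one _
    · obtain ⟨i, hi⟩ := cs.exists_rightDescent_of_ne_one hx1
      -- the letter `i` lies in `J ∪ K`
      have hiM : i ∈ J ∪ K := by
        apply mem_of_simple_bru hx
        have h1 : Bru cs (1 * cs.simple i) x := (bru_one x).mul_simple_le hi
        simpa using h1
      have hlt : ∀ L : Set B, i ∈ L → cs.length (lp cs L x) < n := by
        intro L hiL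
        have h1 := length_eq_lp_rp (cs := cs) L x
        have h2 : cs.length (rp cs L x) ≠ 0 := by
          intro h0
          rw [cs.length_eq_zero_iff] at h0
          have h3 := lp_mul_rp cs L x
          rw [h0, mul_one] at h3
          have h4 := lp_mem cs L x i hiL
          rw [h3] at h4
          exact absurd hi (not_lt.mpr h4.le)
        lia
      rcases hiM with h | h
      · exact key J Set.subset_union_left hJ x hx hb
          (fun h1 h2 => ih _ (hlt J h) (lp cs J x) h1 h2 rfl)
      · exact key K Set.subset_union_right hK x hx hb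
          (fun h1 h2 => ih _ (hlt K h) (lp cs K x) h1 h2 rfl)

/-! ### Intersections -/

theorem step_up {w : W} {J L : Set B} (hLJ : L ⊆ J) (hJ : Good cs w J) {x z : W}
    (hx : x ∈ minReps cs L) (hz : z ∈ parabolic cs L) (hb : Bru cs (x * z) w) :
    lp cs J w * rp cs J x ∈ minReps cs L ∧ Bru cs (lp cs J w * rp cs J x * z) w ∧
      cs.length x ≤ cs.length (lp cs J w * rp cs J x) ∧
      (cs.length (lp cs J w * rp cs J x) ≤ cs.length x → lp cs J x = lp cs J w) := by
  have hzJ : z ∈ parabolic cs J := parabolic_mono hLJ hz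
  have h1 : rp cs J x ∈ minReps cs L := by
    apply minReps_of_mul hLJ (lp_mem cs J x) (rp_mem cs J x)
    rwa [lp_mul_rp]
  obtain ⟨h2, h3⟩ := lp_rp_eq (cs := cs) (J := J) (w := x * z) (lp_mem cs J x)
    (mul_mem (rp_mem cs J x) hzJ) (by rw [← mul_assoc, lp_mul_rp])
  have h4 : Bru cs (lp cs J x) (lp cs J w) := by
    rw [← h2]; exact lp_bru_lp hb
  have h5 : Bru cs (rp cs J x * z) (rp cs J w) := by
    apply hJ _ (mul_mem (rp_mem cs J x) hzJ)
    have := (rp_bru J (x * z)).trans hb
    rwa [h3] at this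
  have h6 := bru_mul (cs := cs) (length_mul_of_mem (lp_mem cs J w) (rp_mem cs J w))
    (Bru.refl _) h5
  rw [lp_mul_rp, ← mul_assoc] at h6
  have h7 := length_mul_of_mem (lp_mem cs J w) (rp_mem cs J x)
  have h8 := length_eq_lp_rp (cs := cs) J x
  have h9 := h4.length_le
  refine ⟨mul_mem_minReps hLJ (lp_mem cs J w) h1 (rp_mem cs J x), h6, by lia, ?_⟩
  intro h10
  exact h4.eq_of_length (by lia)

theorem good_inter {w : W} {J K : Set B} (hJ : Good cs w J) (hK : Good cs w K) :
    Good cs w (J ∩ K) := by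
  intro z hz hb
  have key : ∀ n : ℕ, ∀ x ∈ minReps cs (J ∩ K), Bru cs (x * z) w →
      cs.length w - cs.length x = n → Bru cs z (rp cs (J ∩ K) w) := by
    intro n
    induction n using Nat.strong_induction_on with
    | _ n ih =>
      intro x hx hxb hn
      have hle : ∀ y ∈ minReps cs (J ∩ K), Bru cs (y * z) w → cs.length y ≤ cs.length w := by
        intro y hy hyb
        have h1 := hyb.length_le
        rw [length_mul_of_mem hy hz] at h1
        lia
      obtain ⟨a1, a2, a3, a4⟩ := step_up Set.inter_subset_left hJ hx hz hxb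
      obtain ⟨b1, b2, b3, b4⟩ := step_up Set.inter_subset_right hK hx hz hxb
      rcases lt_or_eq_of_le a3 with ha | ha
      · have := hle _ a1 a2
        exact ih _ (by lia) _ a1 a2 rfl
      rcases lt_or_eq_of_le b3 with hb' | hb'
      · have := hle _ b1 b2
        exact ih _ (by lia) _ b1 b2 rfl
      have c1 := a4 ha.ge
      have c2 := b4 hb'.ge
      -- now `x⁻¹ w` lies in both parabolic subgroups
      have d1 : x⁻¹ * w ∈ parabolic cs J := by
        have : x⁻¹ * w = (rp cs J x)⁻¹ * rp cs J w := by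
          conv_lhs => rw [← lp_mul_rp cs J x, ← lp_mul_rp cs J w, c1]
          group
        rw [this]; exact mul_mem (inv_mem (rp_mem cs J x)) (rp_mem cs J w)
      have d2 : x⁻¹ * w ∈ parabolic cs K := by
        have : x⁻¹ * w = (rp cs K x)⁻¹ * rp cs K w := by
          conv_lhs => rw [← lp_mul_rp cs K x, ← lp_mul_rp cs K w, c2]
          group
        rw [this]; exact mul_mem (inv_mem (rp_mem cs K x)) (rp_mem cs K w)
      obtain ⟨_, e2⟩ := lp_rp_eq hx (parabolic_inter d1 d2) (w := w) (by group)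
      rw [e2]
      obtain ⟨ω, hω, hωx⟩ := cs.exists_isReduced x
      apply bru_cancel_left ω
      · rw [← hωx, length_mul_of_mem hx hz, ← hω.eq, ← hωx]
      · rw [← hωx]
        simpa using hxb
  refine key _ 1 ?_ (by simpa using hb) rfl
  intro i _
  simp

/-- Every element has exactly one parabolic factorisation. -/
theorem existsUnique_factor (cs : CoxeterSystem M W) (J : Set B) (w : W) :
    ∃! p : W × W, p.1 ∈ minReps cs J ∧ p.2 ∈ parabolic cs J ∧ w = p.1 * p.2 := by
  refine ⟨(lp cs J w, rp cs J w), ⟨lp_mem cs J w, rp_mem cs J w, (lp_mul_rp cs J w).symm⟩, ?_⟩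
  rintro ⟨u, v⟩ ⟨h1, h2, h3⟩
  obtain ⟨h4, h5⟩ := lp_rp_eq h1 h2 h3
  exact Prod.ext h4.symm h5.symm

/-- The support may be read off from any reduced word. -/
theorem mem_support_iff (cs : CoxeterSystem M W) {ω : List B} (hω : cs.IsReduced ω) (i : B) :
    i ∈ support cs (cs.wordProd ω) ↔ i ∈ ω := by
  constructor
  · rintro ⟨ω', h1, h2, h3⟩
    have h4 := bru_simple_of_mem h1 h3
    rw [h2] at h4
    exact mem_of_simple_bru (J := {j | j ∈ ω}) (wordProd_mem_parabolic (fun j hj => hj)) h4
  · intro h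
    exact ⟨ω, hω, rfl, h⟩

theorem BP_lattice (cs : CoxeterSystem M W) (w : W) {J K : Set B} (hJ : J ∈ BP cs w)
    (hK : K ∈ BP cs w) : J ∩ K ∈ BP cs w ∧ J ∪ K ∈ BP cs w :=
  ⟨mem_BP_of_good (good_inter (good_of_mem_BP hJ) (good_of_mem_BP hK)),
    mem_BP_of_good (good_union (good_of_mem_BP hJ) (good_of_mem_BP hK))⟩

end Pool.Agent.H.MP_330ad9_al
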